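import Pool.Agent.H773.LK.Spec3

/-!
# PTM: the change of variables in the frequency plane
-/

set_option autoImplicit false

noncomputable section

namespace Pool.Agent.H747.LKPTM

open MeasureTheory Filter Topology Set Pool.Agent.H773.LK
open scoped ENNReal NNReal ComplexConjugate InnerProductSpace

theorem meas_shift : Measurable (fun p : ℝ × ℤ => (p.2 : ℝ) + p.1) :=
  ((measurable_of_countable (fun m : ℤ => (m : ℝ))).comp measurable_snd).add measurable_fst

theorem map_shift : Measure.map (fun p : ℝ × ℤ => (p.2 : ℝ) + p.1)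
    (m01.prod (Measure.count : Measure ℤ)) = (volume : Measure ℝ) := by
  ext s hs
  rw [Measure.map_apply meas_shift hs, Measure.prod_apply_symm (meas_shift hs), lintegral_count]
  have h : ∀ m : ℤ, m01 ((fun θ => (θ, m)) ⁻¹' ((fun p : ℝ × ℤ => (p.2 : ℝ) + p.1) ⁻¹' s)) =
      volume (s ∩ Ioc (m : ℝ) (m + 1)) := by
    intro m
    have hmm : Measurable (fun θ : ℝ => (θ, m)) := measurable_prodMk_right
    rw [Measure.restrict_apply (hmm (meas_shift hs))]
    have h1 : volume (s ∩ Ioc (m : ℝ) (m + 1)) = volume (s ∩ Ioo (m : ℝ) (m + 1)) :=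
      measure_congr ((ae_eq_refl s).inter Ioo_ae_eq_Ioc.symm)
    rw [h1, ← measure_preimage_add volume (m : ℝ) (s ∩ Ioo (m : ℝ) (m + 1))]
    congr 1
    ext θ
    simp only [mem_inter_iff, mem_preimage, mem_Ioo, lt_add_iff_pos_right, add_lt_add_iff_left]
  simp_rw [h]
  rw [← measure_iUnion, ← inter_iUnion, iUnion_Ioc_intCast, inter_univ]
  · intro i j hij
    exact (pairwise_disjoint_Ioc_intCast ℝ hij).mono inter_subset_right inter_subset_right
  · intro m
    exact hs.inter measurableSet_Ioc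

theorem map_f {a : ℝ} (ha : 0 < a) : Measure.map (fun p : ℝ × ℤ => ((p.2 : ℝ) + p.1) / a)
    (m01.prod (Measure.count : Measure ℤ)) = ENNReal.ofReal a • (volume : Measure ℝ) := by
  have e : (fun p : ℝ × ℤ => ((p.2 : ℝ) + p.1) / a) =
      (fun x => x * a⁻¹) ∘ (fun p : ℝ × ℤ => (p.2 : ℝ) + p.1) := by
    funext p
    simp only [Function.comp, div_eq_mul_inv]
  rw [e, ← Measure.map_map (measurable_mul_const _) meas_shift, map_shift,
    Real.map_volume_mul_right (inv_ne_zero ha.ne'), inv_inv, abs_of_pos ha]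

theorem exists_equiv {e₁ e₂ : Pl} (h1 : ‖e₁‖ = 1) (h2 : ‖e₂‖ = 1) (h12 : ⟪e₁, e₂⟫_ℝ = 0) :
    ∃ Φ : ℝ × ℝ ≃ᵐ Pl, MeasurePreserving Φ volume volume ∧ ∀ p, Φ p = p.1 • e₁ + p.2 • e₂ := by
  have hon : Orthonormal ℝ ![e₁, e₂] := by
    constructor
    · intro i
      fin_cases i
      · exact h1
      · exact h2
    · intro i j hij
      fin_cases i <;> fin_cases j
      · exact absurd rfl hij
      · exact h12
      · show ⟪e₂, e₁⟫_ℝ = 0
        rw [real_inner_comm]
        exact h12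
      · exact absurd rfl hij
  have hsp : (⊤ : Submodule ℝ Pl) ≤ Submodule.span ℝ (Set.range ![e₁, e₂]) := by
    rw [hon.linearIndependent.span_eq_top_of_card_eq_finrank (by simp)]
  let b : OrthonormalBasis (Fin 2) ℝ Pl := OrthonormalBasis.mk hon hsp
  refine ⟨(MeasurableEquiv.finTwoArrow.symm.trans (MeasurableEquiv.toLp 2 (Fin 2 → ℝ))).trans
    b.repr.symm.toHomeomorph.toMeasurableEquiv, ?_, ?_⟩
  · have hA : MeasurePreserving (MeasurableEquiv.finTwoArrow.symm : ℝ × ℝ ≃ᵐ (Fin 2 → ℝ))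
        volume volume := (volume_preserving_finTwoArrow ℝ).symm _
    have hB := (PiLp.volume_preserving_toLp (Fin 2)).comp hA
    exact b.measurePreserving_repr_symm.comp hB
  · intro p
    show b.repr.symm (WithLp.toLp 2 (MeasurableEquiv.finTwoArrow.symm p)) = _
    rw [← b.sum_repr_symm, Fin.sum_univ_two]
    have e0 : b 0 = e₁ := by simp [b]
    have e1 : b 1 = e₂ := by simp [b]
    rw [e0, e1]
    rfl

theorem t_PTM : S_PTM := by
  intro a e₁ e₂ ha h1 h2 h12
  obtain ⟨Φ, hΦ, hΦe⟩ := exists_equiv h1 h2 h12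
  have hfm : Measurable (fun p : ℝ × ℤ => ((p.2 : ℝ) + p.1) / a) := meas_shift.div_const _
  have hT : (fun p : ℝ × (ℤ × ℝ) => Pt a e₁ e₂ p.1 p.2) =
      Φ ∘ ((Prod.map (fun p : ℝ × ℤ => ((p.2 : ℝ) + p.1) / a) (id : ℝ → ℝ)) ∘
        (MeasurableEquiv.prodAssoc.symm : ℝ × (ℤ × ℝ) ≃ᵐ (ℝ × ℤ) × ℝ)) := by
    funext p
    simp only [Function.comp]
    rw [hΦe]
    rfl
  have hmm : Measurable ((Prod.map (fun p : ℝ × ℤ => ((p.2 : ℝ) + p.1) / a) (id : ℝ → ℝ)) ∘
        (MeasurableEquiv.prodAssoc.symm : ℝ × (ℤ × ℝ) ≃ᵐ (ℝ × ℤ) × ℝ)) :=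
    (hfm.prodMap measurable_id).comp (MeasurableEquiv.measurable _)
  refine ⟨?_, ?_, ?_⟩
  · rw [hT]
    exact Φ.measurable.comp hmm
  · rw [hT, ← Measure.map_map Φ.measurable hmm,
      ← Measure.map_map (hfm.prodMap measurable_id) (MeasurableEquiv.measurable _)]
    have hA : Measure.map (MeasurableEquiv.prodAssoc.symm : ℝ × (ℤ × ℝ) ≃ᵐ (ℝ × ℤ) × ℝ)
        (m01.prod mZR) = (m01.prod (Measure.count : Measure ℤ)).prod (volume : Measure ℝ) :=
      ((measurePreserving_prodAssoc m01 (Measure.count : Measure ℤ)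
        (volume : Measure ℝ)).symm _).map_eq
    rw [hA, ← Measure.map_prod_map _ _ hfm measurable_id, map_f ha, Measure.map_id,
      Measure.prod_smul_left, Measure.map_smul]
    congr 1
    exact hΦ.map_eq
  · refine ⟨fun x => (Int.fract (a * (Φ.symm x).1), (⌊a * (Φ.symm x).1⌋, (Φ.symm x).2)), ?_, ?_, ?_⟩
    · have hm1 : Measurable fun x => a * (Φ.symm x).1 :=
        (measurable_fst.comp Φ.symm.measurable).const_mul a
      exact hm1.fract.prodMk ((Int.measurable_floor.comp hm1).prodMk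
        (measurable_snd.comp Φ.symm.measurable))
    · refine Eventually.of_forall fun x => ?_
      unfold Pt
      simp only
      rw [Int.floor_add_fract, mul_div_cancel_left₀ _ ha.ne', ← hΦe (Φ.symm x)]
      exact Φ.apply_symm_apply x
    · have h01 : ∀ᵐ p : ℝ × (ℤ × ℝ) ∂(m01.prod mZR), p.1 ∈ Ioo (0 : ℝ) 1 :=
        Measure.quasiMeasurePreserving_fst.ae (ae_restrict_mem measurableSet_Ioo)
      filter_upwards [h01] with p hp
      have e : Φ.symm (Pt a e₁ e₂ p.1 p.2) = (((p.2.1 : ℝ) + p.1) / a, p.2.2) := by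
        rw [MeasurableEquiv.symm_apply_eq, hΦe]
        rfl
      rw [e]
      simp only
      rw [mul_div_cancel₀ _ ha.ne', Int.fract_intCast_add, Int.floor_intCast_add,
        Int.fract_eq_self.2 ⟨hp.1.le, hp.2⟩, Int.floor_eq_zero_iff.2 ⟨hp.1.le, hp.2⟩, add_zero]

end Pool.Agent.H747.LKPTM
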